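import Pool.Agent.H95.SG
set_option autoImplicit false
open Pool.Agent.H95.SG

theorem Pool.Agent.Results.MP_b7f2f1_an.Main.result (𝕜 : Type) [RCLike 𝕜] :
    ∃ (X : Type) (_ : NormedAddCommGroup X) (_ : NormedSpace 𝕜 X) (_ : CompleteSpace X)
      (x : ℕ → X) (f : ℕ → X →L[𝕜] 𝕜), IsM x f ∧ AlmostGreedy1 x f ∧ ¬ SemiGreedy1 x f :=
  ⟨(N 𝕜).Sp, inferInstance, inferInstance, inferInstance, xx 𝕜, ff 𝕜, main⟩
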